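import Pool.Agent.W744.GL.Stm
import Pool.Agent.Helper503.Gp.Char2
import Pool.Agent.Helper503.Gp.BF1
import Pool.Agent.Helper503.Gp.BF2

/-! Project GL, part SEP. -/

set_option autoImplicit false

open Metric Set Filter Topology Complex
open scoped ComplexConjugate

namespace Pool.Agent.W451.GL.SEP

open Pool.Agent.W744.GL
open Pool.Agent.Helper503.Gp (HI IsChar Gl bfac cay PH BlaOn BF mu gl_rho BF_mem BF_le BF_zero
  BF_lower)

lemma exists_sep (U V : Ultrafilter ℤ) (k : ℤ) (h : V ≠ sh U k) :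
    ∃ S ∈ V, {a : ℤ | a + k ∉ S} ∈ U := by
  by_contra hno
  push Not at hno
  apply h
  symm
  apply Ultrafilter.eq_of_le
  intro S hS
  have h1 := hno S hS
  rw [← Ultrafilter.compl_mem_iff_notMem] at h1
  have h2 : {a : ℤ | a + k ∉ S}ᶜ = (fun a => a + k) ⁻¹' S := by
    ext a
    simp
  rw [h2] at h1
  exact h1

theorem main (h1 : S_ULCH) (h2 : S_SEPM) : S_SEP := by
  intro U V ζ₀ ζ hζ₀ hζ hne hG
  obtain ⟨hpt, hul⟩ := h1
  have him : ∀ (a : ℤ) (w : ℂ), 0 < w.im → 0 < ((a : ℂ) + w).im := by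
    intro a w hw
    simpa using hw
  have hc : ∀ (W : Ultrafilter ℤ) (w : ℂ), 0 < w.im → IsChar (lam W w) ∧
      ∀ f, Tendsto (fun a : ℤ => pt ((a : ℂ) + w) f) W (𝓝 (lam W w f)) := by
    intro W w hw
    exact hul ℤ W (fun a : ℤ => pt ((a : ℂ) + w)) (fun a => hpt _ (him a w hw))
  have hG' : Gl (lam V ζ) (lam U ζ₀) := by
    obtain ⟨c, hc2, hc3⟩ := hG
    refine ⟨c, hc2, fun f hf hf1 => ?_⟩
    rw [norm_sub_rev]
    exact hc3 f hf hf1
  obtain ⟨r, hr0, hr1, hr⟩ := gl_rho (hc V ζ hζ).1 (hc U ζ₀ hζ₀).1 hG'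
  obtain ⟨C, hC, hsep⟩ := h2 ζ ζ₀ hζ hζ₀
  choose S hSV hSU using fun k => exists_sep U V k (hne k)
  have key : ∀ N : ℕ, 0 < N → C / N ≤ 1 / 2 → 1 - 2 * (C / N) ≤ r ^ 2 := by
    intro N hN hCN
    set A' : Set ℤ := ⋂ k ∈ Finset.Icc (-(N : ℤ)) N, S k with hA'
    set A : Set ℤ := ⋂ k ∈ Finset.Icc (-(N : ℤ)) N, {a : ℤ | a + k ∉ S k} with hA
    have hA'V : A' ∈ (V : Filter ℤ) :=
      (Filter.biInter_finset_mem _).mpr fun k _ => hSV k
    have hAU : A ∈ (U : Filter ℤ) :=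
      (Filter.biInter_finset_mem _).mpr fun k _ => hSU k
    have hdist : ∀ a ∈ A, ∀ n ∈ A', (N : ℤ) ≤ |n - a| := by
      intro a ha n hn
      by_contra hlt
      push Not at hlt
      have hk : n - a ∈ Finset.Icc (-(N : ℤ)) N := by
        rw [Finset.mem_Icc]
        rw [abs_lt] at hlt
        constructor <;> linarith
      have h3 := Set.mem_iInter₂.mp ha (n - a) hk
      have h4 := Set.mem_iInter₂.mp hn (n - a) hk
      apply h3
      rw [add_sub_cancel]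
      exact h4
    obtain ⟨a₀, ha₀⟩ := Ultrafilter.nonempty_of_mem hAU
    have hBla : BlaOn (lat ζ) A' := (hsep N A' a₀ hN (hdist a₀ ha₀)).1
    set g := BF (lat ζ) A' with hg
    have hgHI : g ∈ HI := BF_mem hBla
    have hg1 : ∀ z ∈ Metric.ball (0 : ℂ) 1, ‖g z‖ ≤ 1 := BF_le hBla
    have hptg : ∀ z : ℂ, pt z g = g (cay z) := by
      intro z
      unfold pt
      rw [if_pos hgHI]
    have hV0 : lam V ζ g = 0 := by
      refine tendsto_nhds_unique ((hc V ζ hζ).2 g) ?_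
      refine tendsto_const_nhds.congr' ?_
      filter_upwards [hA'V] with n hn
      rw [hptg]
      exact (BF_zero hBla hn).symm
    have hUr : ‖lam U ζ₀ g‖ ≤ r := hr g hgHI hg1 hV0
    have hlow : Real.exp (-(2 * (C / N))) ≤ ‖lam U ζ₀ g‖ ^ 2 := by
      refine ge_of_tendsto (((hc U ζ₀ hζ₀).2 g).norm.pow 2) ?_
      filter_upwards [hAU] with a ha
      obtain ⟨-, b2, b3⟩ := hsep N A' a hN (hdist a ha)
      rw [hptg]
      have h5 := BF_lower hBla (him a ζ₀ hζ₀) (fun i hi => (b3 i hi).trans hCN)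
      refine le_trans ?_ h5
      apply Real.exp_le_exp.mpr
      linarith
    have h6 := Real.add_one_le_exp (-(2 * (C / N)))
    have h7 : ‖lam U ζ₀ g‖ ^ 2 ≤ r ^ 2 := pow_le_pow_left₀ (norm_nonneg _) hUr 2
    linarith
  have hr2 : 0 < 1 - r ^ 2 := by nlinarith
  obtain ⟨N, hN⟩ := exists_nat_gt (max (2 * C) (2 * C / (1 - r ^ 2)))
  have hN1 : 2 * C < N := lt_of_le_of_lt (le_max_left _ _) hN
  have hN2 : 2 * C / (1 - r ^ 2) < N := lt_of_le_of_lt (le_max_right _ _) hN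
  have hNpos : (0 : ℝ) < N := by linarith
  have h8 := key N (by exact_mod_cast hNpos) (by
    rw [div_le_iff₀ hNpos]
    linarith)
  rw [div_lt_iff₀ hr2] at hN2
  have h9 : 2 * (C / N) < 1 - r ^ 2 := by
    rw [← mul_div_assoc, div_lt_iff₀ hNpos]
    linarith
  linarith

end Pool.Agent.W451.GL.SEP
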