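import Pool.Agent.W555.GL.Stm

/-! GL-DBE: points and hyperplanes in a finite interval. -/

set_option autoImplicit false

namespace Pool.Agent.W451.GL

open Pool.Agent.W555.GL

section count

open Classical in
/-- double counting over the non-incident pairs -/
theorem dbe_count {α β : Type} (N : Finset α) (H : Finset β) (I : α → β → Prop)
    (h1 : ∀ p ∈ N, ∀ h ∈ H, ¬ I p h → 1 ≤ (N.filter (fun q => I q h)).card ∧
      (N.filter (fun q => I q h)).card ≤ (H.filter (fun k => I p k)).card)
    (h2 : ∀ p ∈ N, ∃ h ∈ H, ¬ I p h) (h3 : ∀ h ∈ H, ∃ p ∈ N, ¬ I p h) : N.card ≤ H.card := by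
  by_contra hlt
  push Not at hlt
  have hN : 0 < N.card := by omega
  obtain ⟨p0, hp0⟩ := Finset.card_pos.1 hN
  obtain ⟨h0, hh0, hI0⟩ := h2 p0 hp0
  have hH : 0 < H.card := Finset.card_pos.2 ⟨h0, hh0⟩
  set n : ℚ := (N.card : ℚ) with hn
  set m : ℚ := (H.card : ℚ) with hm
  have hn0 : 0 < n := by rw [hn]; exact_mod_cast hN
  have hm0 : 0 < m := by rw [hm]; exact_mod_cast hH
  have hmn : m < n := by rw [hn, hm]; exact_mod_cast hlt
  let a : α → ℚ := fun p => ((H.filter (fun k => ¬ I p k)).card : ℚ)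
  let b : β → ℚ := fun h => ((N.filter (fun q => ¬ I q h)).card : ℚ)
  have ha : ∀ p ∈ N, 0 < a p := by
    intro p hp
    obtain ⟨h, hh, hI⟩ := h2 p hp
    have : 0 < (H.filter (fun k => ¬ I p k)).card :=
      Finset.card_pos.2 ⟨h, Finset.mem_filter.2 ⟨hh, hI⟩⟩
    exact Nat.cast_pos.2 this
  have hb : ∀ h ∈ H, 0 < b h := by
    intro h hh
    obtain ⟨p, hp, hI⟩ := h3 h hh
    have : 0 < (N.filter (fun k => ¬ I k h)).card :=
      Finset.card_pos.2 ⟨p, Finset.mem_filter.2 ⟨hp, hI⟩⟩
    exact Nat.cast_pos.2 this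
  have ha' : ∀ p, a p = m - ((H.filter (fun k => I p k)).card : ℚ) := by
    intro p
    have := Finset.card_filter_add_card_filter_not (s := H) (fun k => I p k)
    have h2 : ((H.filter (fun k => I p k)).card : ℚ) + ((H.filter (fun k => ¬ I p k)).card : ℚ)
        = m := by rw [hm]; exact_mod_cast this
    simp only [a]; linarith
  have hb' : ∀ h, b h = n - ((N.filter (fun q => I q h)).card : ℚ) := by
    intro h
    have := Finset.card_filter_add_card_filter_not (s := N) (fun q => I q h)
    have h2 : ((N.filter (fun q => I q h)).card : ℚ) + ((N.filter (fun q => ¬ I q h)).card : ℚ)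
        = n := by rw [hn]; exact_mod_cast this
    simp only [b]; linarith
  have hL : ∑ p ∈ N, ∑ h ∈ H, (if ¬ I p h then 1 / (n * a p) else 0) = 1 := by
    have : ∀ p ∈ N, ∑ h ∈ H, (if ¬ I p h then 1 / (n * a p) else 0) = 1 / n := by
      intro p hp
      rw [← Finset.sum_filter, Finset.sum_const, nsmul_eq_mul]
      have := ha p hp
      show a p * (1 / (n * a p)) = 1 / n
      field_simp
    rw [Finset.sum_congr rfl this, Finset.sum_const, nsmul_eq_mul, ← hn]
    field_simp
  have hR : ∑ p ∈ N, ∑ h ∈ H, (if ¬ I p h then 1 / (m * b h) else 0) = 1 := by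
    rw [Finset.sum_comm]
    have : ∀ h ∈ H, ∑ p ∈ N, (if ¬ I p h then 1 / (m * b h) else 0) = 1 / m := by
      intro h hh
      rw [← Finset.sum_filter, Finset.sum_const, nsmul_eq_mul]
      have := hb h hh
      show b h * (1 / (m * b h)) = 1 / m
      field_simp
    rw [Finset.sum_congr rfl this, Finset.sum_const, nsmul_eq_mul, ← hm]
    field_simp
  have hterm : ∀ p ∈ N, ∀ h ∈ H, ¬ I p h → 1 / (m * b h) < 1 / (n * a p) := by
    intro p hp h hh hI
    have hap := ha p hp
    have hbh := hb h hh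
    apply one_div_lt_one_div_of_lt (by positivity)
    rw [ha', hb']
    obtain ⟨e1, e2⟩ := h1 p hp h hh hI
    have e1' : (1 : ℚ) ≤ ((N.filter (fun q => I q h)).card : ℚ) := by exact_mod_cast e1
    have e2' : ((N.filter (fun q => I q h)).card : ℚ) ≤ ((H.filter (fun k => I p k)).card : ℚ) := by
      exact_mod_cast e2
    have e3 : m * ((N.filter (fun q => I q h)).card : ℚ)
        < n * ((H.filter (fun k => I p k)).card : ℚ) := by
      have a1 : m * ((N.filter (fun q => I q h)).card : ℚ)
        ≤ m * ((H.filter (fun k => I p k)).card : ℚ) := mul_le_mul_of_nonneg_left e2' hm0.le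
      have a2 : m * ((H.filter (fun k => I p k)).card : ℚ)
        < n * ((H.filter (fun k => I p k)).card : ℚ) :=
        mul_lt_mul_of_pos_right hmn (by linarith)
      linarith
    nlinarith
  have hlt2 : ∑ p ∈ N, ∑ h ∈ H, (if ¬ I p h then 1 / (m * b h) else 0)
      < ∑ p ∈ N, ∑ h ∈ H, (if ¬ I p h then 1 / (n * a p) else 0) := by
    apply Finset.sum_lt_sum
    · intro p hp
      apply Finset.sum_le_sum
      intro h hh
      by_cases hI : I p h
      · simp [hI]
      · simp only [hI, not_false_eq_true, if_true]; exact (hterm p hp h hh hI).le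
    · refine ⟨p0, hp0, ?_⟩
      apply Finset.sum_lt_sum
      · intro h hh
        by_cases hI : I p0 h
        · simp [hI]
        · simp only [hI, not_false_eq_true, if_true]; exact (hterm p0 hp0 h hh hI).le
      · refine ⟨h0, hh0, ?_⟩
        simp only [hI0, not_false_eq_true, if_true]; exact hterm p0 hp0 h0 hh0 hI0
  rw [hL, hR] at hlt2
  exact lt_irrefl _ hlt2

end count

variable {L : Type} [CompleteLattice L] {rk : L → ℕ} {r : ℕ}

theorem rk_mono (h : RkData L rk r) {x y : L} (hxy : x ≤ y) : rk x ≤ rk y := by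
  rcases hxy.lt_or_eq with h1 | h1
  · exact (h.mono x y h1).le
  · rw [h1]

theorem eq_of_rk (h : RkData L rk r) {x y : L} (hxy : x ≤ y) (hr : rk y ≤ rk x) : x = y := by
  rcases hxy.lt_or_eq with h1 | h1
  · have := h.mono x y h1; omega
  · exact h1

theorem covBy_of_rk (h : RkData L rk r) {x y : L} (hxy : x ≤ y) (hr : rk y = rk x + 1) :
    x ⋖ y := by
  refine ⟨lt_of_le_of_ne hxy ?_, ?_⟩
  · rintro rfl; omega
  · intro z h1 h2
    have := h.mono _ _ h1
    have := h.mono _ _ h2
    omega

theorem covBy_iff (h : RkData L rk r) {x y : L} : x ⋖ y ↔ x ≤ y ∧ rk y = rk x + 1 := by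
  constructor
  · intro hc
    refine ⟨hc.le, ?_⟩
    obtain ⟨a, ha, hay, hax⟩ := h.gen x y hc.lt
    have h1 := h.atom x a ha hax
    have h2 : x < x ⊔ a := lt_of_le_of_ne le_sup_left (by
      intro he; apply hax; rw [he]; exact le_sup_right)
    have h3 : x ⊔ a ≤ y := sup_le hc.le hay
    have h4 : x ⊔ a = y := by
      rcases h3.lt_or_eq with h5 | h5
      · exact absurd h5 (hc.2 h2)
      · exact h5
    rw [← h4, h1]
  · rintro ⟨h1, h2⟩; exact covBy_of_rk h h1 h2

theorem sup_atom_cov (h : RkData L rk r) {x a : L} (ha : IsAtom a) (hax : ¬ a ≤ x) :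
    x ⋖ x ⊔ a := covBy_of_rk h le_sup_left (h.atom x a ha hax)

theorem cov_eq_sup (h : RkData L rk r) {x p : L} (hp : x ⋖ p) :
    ∃ a, IsAtom a ∧ ¬ a ≤ x ∧ p = x ⊔ a := by
  obtain ⟨a, ha, hay, hax⟩ := h.gen x p hp.lt
  refine ⟨a, ha, hax, ?_⟩
  symm
  apply eq_of_rk h (sup_le hp.le hay)
  rw [h.atom x a ha hax, ((covBy_iff h).1 hp).2]

theorem le_of_pts (h : RkData L rk r) {x y : L} (hxy : pts x ⊆ pts y) : x ≤ y := by
  by_contra hc
  have h1 : x ⊓ y < x := lt_of_le_of_ne inf_le_left (by
    intro he; apply hc; rw [← he]; exact inf_le_right)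
  obtain ⟨a, ha, hax, hax'⟩ := h.gen _ _ h1
  have := hxy ⟨ha, hax⟩
  exact hax' (le_inf hax this.2)

theorem finite_Iic (h : RkData L rk r) {y : L} (hy : (pts y).Finite) : {z : L | z ≤ y}.Finite := by
  apply Set.Finite.of_finite_image (f := fun z => pts z)
  · apply hy.finite_subsets.subset
    rintro _ ⟨z, hz, rfl⟩
    intro a ha
    exact ⟨ha.1, ha.2.trans hz⟩
  · intro z _ z' _ he
    have he : pts z = pts z' := he
    exact le_antisymm (le_of_pts h he.subset) (le_of_pts h he.symm.subset)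

/-- every atom outside `x` is missed by a hyperplane above `x` -/
theorem exists_hyp (h : RkData L rk r) (y : L) : ∀ (d : ℕ) (x a : L), rk y - rk x = d → x ≤ y →
    IsAtom a → a ≤ y → ¬ a ≤ x → ∃ k, x ≤ k ∧ k ⋖ y ∧ ¬ a ≤ k := by
  intro d
  induction d using Nat.strong_induction_on with
  | _ d ih =>
    intro x a hd hxy ha hay hax
    by_cases he : x ⊔ a = y
    · refine ⟨x, le_rfl, ?_, hax⟩
      rw [← he]; exact sup_atom_cov h ha hax
    · have hlt : x ⊔ a < y := lt_of_le_of_ne (sup_le hxy hay) he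
      obtain ⟨b, hb, hby, hbx⟩ := h.gen _ _ hlt
      have hbx' : ¬ b ≤ x := fun hc => hbx (hc.trans le_sup_left)
      have hnot : ¬ a ≤ x ⊔ b := by
        intro hc
        apply hbx
        have h1 : x ⊔ a ≤ x ⊔ b := sup_le le_sup_left hc
        have h2 : x ⊔ a = x ⊔ b := eq_of_rk h h1 (by rw [h.atom x a ha hax, h.atom x b hb hbx'])
        rw [h2]; exact le_sup_right
      have r1 := h.atom x b hb hbx'
      have r2 := rk_mono h (sup_le hxy hby : x ⊔ b ≤ y)
      obtain ⟨k, hk1, hk2, hk3⟩ := ih (rk y - rk (x ⊔ b)) (by omega) (x ⊔ b) a rfl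
        (sup_le hxy hby) ha hay hnot
      exact ⟨k, le_sup_left.trans hk1, hk2, hk3⟩

theorem sup_point_cov (h : RkData L rk r) {x p q : L} (hp : x ⋖ p) (hq : x ⋖ q) (hne : p ≠ q) :
    p ⋖ p ⊔ q ∧ rk (p ⊔ q) = rk x + 2 := by
  obtain ⟨b, hb, hbx, rfl⟩ := cov_eq_sup h hq
  have hbp : ¬ b ≤ p := by
    intro hc
    apply hne
    symm
    apply eq_of_rk h (sup_le hp.le hc)
    rw [h.atom x b hb hbx, ((covBy_iff h).1 hp).2]
  have e : p ⊔ (x ⊔ b) = p ⊔ b := by
    rw [← sup_assoc, sup_eq_left.2 hp.le]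
  rw [e]
  refine ⟨sup_atom_cov h hb hbp, ?_⟩
  rw [h.atom p b hb hbp, ((covBy_iff h).1 hp).2]

theorem dbe_aux (h : RkData L rk r) (y : L) (hfin : (pts y).Finite) : ∀ (d : ℕ) (x : L),
    rk y - rk x = d → x ≤ y → rk x + 2 ≤ rk y →
      {p : L | x ⋖ p ∧ p ≤ y}.ncard ≤ {k : L | x ≤ k ∧ k ⋖ y}.ncard := by
  classical
  intro d
  induction d using Nat.strong_induction_on with
  | _ d ih =>
    intro x hd hxy hr
    have hIic := finite_Iic h hfin
    have hNf : {p : L | x ⋖ p ∧ p ≤ y}.Finite := hIic.subset fun p hp => hp.2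
    have hHf : {k : L | x ≤ k ∧ k ⋖ y}.Finite := hIic.subset fun k hk => hk.2.le
    rcases Nat.lt_or_ge (rk y) (rk x + 3) with hr2 | hr3
    · apply Set.ncard_le_ncard _ hHf
      rintro p ⟨hp1, hp2⟩
      refine ⟨hp1.le, covBy_of_rk h hp2 ?_⟩
      rw [((covBy_iff h).1 hp1).2]; omega
    · rw [Set.ncard_eq_toFinset_card _ hNf, Set.ncard_eq_toFinset_card _ hHf]
      apply dbe_count _ _ (fun p k => p ≤ k)
      · intro p hp k hk hpk
        rw [Set.Finite.mem_toFinset] at hp hk
        obtain ⟨hp1, hp2⟩ := hp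
        obtain ⟨hk1, hk2⟩ := hk
        have hrp := ((covBy_iff h).1 hp1).2
        have hrk := ((covBy_iff h).1 hk2).2
        constructor
        · rw [Nat.succ_le_iff, Finset.card_pos]
          have hlt : x < k := lt_of_le_of_ne hk1 (by rintro rfl; omega)
          obtain ⟨a, ha, hak, hax⟩ := h.gen _ _ hlt
          refine ⟨x ⊔ a, Finset.mem_filter.2 ⟨?_, sup_le hk1 hak⟩⟩
          rw [Set.Finite.mem_toFinset]
          exact ⟨sup_atom_cov h ha hax, (sup_le hk1 hak).trans hk2.le⟩
        · have hCf : {c : L | p ⋖ c ∧ c ≤ y}.Finite := hIic.subset fun c hc => hc.2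
          have hIH := ih (rk y - rk p) (by omega) p rfl hp2 (by omega)
          have e1 : (hNf.toFinset.filter (fun q => q ≤ k)).card ≤ hCf.toFinset.card := by
            have hne : ∀ q, q ≤ k → p ≠ q := by
              rintro q hq rfl; exact hpk hq
            apply Finset.card_le_card_of_injOn (fun q => p ⊔ q)
            · intro q hq
              rw [Finset.mem_coe, Finset.mem_filter, Set.Finite.mem_toFinset] at hq
              rw [Finset.mem_coe, Set.Finite.mem_toFinset]
              exact ⟨(sup_point_cov h hp1 hq.1.1 (hne q hq.2)).1, sup_le hp2 hq.1.2⟩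
            · intro q hq q' hq' he
              rw [Finset.mem_coe, Finset.mem_filter, Set.Finite.mem_toFinset] at hq hq'
              have he : p ⊔ q = p ⊔ q' := he
              by_contra hqq
              apply hpk
              have s1 := sup_point_cov h hq.1.1 hq'.1.1 hqq
              have s2 := sup_point_cov h hp1 hq.1.1 (hne q hq.2)
              have s3 : q ⊔ q' ≤ p ⊔ q := sup_le le_sup_right (by rw [he]; exact le_sup_right)
              have s4 : q ⊔ q' = p ⊔ q := eq_of_rk h s3 (by rw [s1.2, s2.2])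
              have s5 : p ≤ q ⊔ q' := by rw [s4]; exact le_sup_left
              exact s5.trans (sup_le hq.2 hq'.2)
          have e2 : (hHf.toFinset.filter (fun k' => p ≤ k')).card
              = {k' : L | p ≤ k' ∧ k' ⋖ y}.ncard := by
            rw [← Set.ncard_coe_finset]
            congr 1
            ext k'
            simp only [Finset.coe_filter, Set.Finite.mem_toFinset, Set.mem_setOf_eq]
            constructor
            · rintro ⟨⟨_, h2⟩, h3⟩; exact ⟨h3, h2⟩
            · rintro ⟨h2, h3⟩; exact ⟨⟨hp1.le.trans h2, h3⟩, h2⟩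
          rw [e2]
          rw [Set.ncard_eq_toFinset_card _ hCf] at hIH
          exact e1.trans hIH
      · intro p hp
        rw [Set.Finite.mem_toFinset] at hp
        obtain ⟨a, ha, hax, hpa⟩ := cov_eq_sup h hp.1
        have hay : a ≤ y := le_trans (by rw [hpa]; exact le_sup_right) hp.2
        obtain ⟨k, hk1, hk2, hk3⟩ := exists_hyp h y _ x a rfl hxy ha hay hax
        refine ⟨k, ?_, ?_⟩
        · rw [Set.Finite.mem_toFinset]; exact ⟨hk1, hk2⟩
        · intro hc; apply hk3; exact le_trans (by rw [hpa]; exact le_sup_right) hc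
      · intro k hk
        rw [Set.Finite.mem_toFinset] at hk
        obtain ⟨a, ha, hay, hak⟩ := h.gen _ _ hk.2.lt
        have hax : ¬ a ≤ x := fun hc => hak (hc.trans hk.1)
        refine ⟨x ⊔ a, ?_, ?_⟩
        · rw [Set.Finite.mem_toFinset]
          exact ⟨sup_atom_cov h ha hax, sup_le hxy hay⟩
        · intro hc; exact hak (le_sup_right.trans hc)

theorem dbe : StDbe := by
  intro L _ rk r h x y hxy hr hfin
  exact dbe_aux h y hfin _ x rfl hxy hr

end Pool.Agent.W451.GL
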