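import Pool.Agent.W845.GL.Stm

/-!
# Uniform integrability
-/

set_option autoImplicit false

namespace Pool.Agent.W451.GL

open Pool.Agent.W845.GL
open Filter MeasureTheory Finset
open scoped Topology

theorem young (a s : ℝ) (hs : 0 < s) : a ≤ s / 2 * a ^ 2 + 1 / (2 * s) := by
  have h : s / 2 * a ^ 2 + 1 / (2 * s) - a = (s * a - 1) ^ 2 / (2 * s) := by
    field_simp
    ring
  have h2 : 0 ≤ (s * a - 1) ^ 2 / (2 * s) := by positivity
  linarith

theorem k6 : S_K6 := by
  intro κ T C hκ0 hκ hT hT2 hκT hκT2 hC hlim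
  have : IsProbabilityMeasure mu := ⟨by simp [mu]⟩
  have hm : ∀ n : ℕ, Integrable (fun z => max (κ z - n) 0) (mu.prod mu) :=
    fun n => (hκ.sub (integrable_const _)).pos_part
  have hmlim : Tendsto (fun n : ℕ => ∫ z, max (κ z - n) 0 ∂(mu.prod mu)) atTop (𝓝 0) := by
    have h1 := tendsto_integral_of_dominated_convergence (μ := mu.prod mu)
      (F := fun (n : ℕ) z => max (κ z - n) 0) (f := fun _ => (0 : ℝ)) κ
      (fun n => (hm n).aestronglyMeasurable) hκ ?_ ?_
    · simpa using h1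
    · intro n
      refine ae_of_all _ fun z => ?_
      rw [Real.norm_of_nonneg (le_max_right _ _)]
      have h2 : (0 : ℝ) ≤ n := Nat.cast_nonneg n
      exact max_le (by linarith) (hκ0 z)
    · refine ae_of_all _ fun z => ?_
      refine tendsto_const_nhds.congr' ?_
      filter_upwards [eventually_ge_atTop ⌈κ z⌉₊] with n hn
      rw [max_eq_right]
      have h3 : κ z ≤ n := Nat.ceil_le.mp hn
      linarith
  have hC0 : 0 ≤ C :=
    le_trans (integral_nonneg fun z => mul_nonneg (hκ0 z) (sq_nonneg _)) (hC 0)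
  have key : ∀ (N n : ℕ) (s l : ℝ), 0 < s → 0 < l → |∫ z, κ z * T N z ∂(mu.prod mu)| ≤
      n * s / 2 * ∫ z, T N z ^ 2 ∂(mu.prod mu) + n / (2 * s) + l / 2 * C +
        1 / (2 * l) * ∫ z, max (κ z - n) 0 ∂(mu.prod mu) := by
    intro N n s l hs hl
    have hI : Integrable (fun z => (n * s / 2) * T N z ^ 2 + n / (2 * s) +
        l / 2 * (κ z * T N z ^ 2) + 1 / (2 * l) * max (κ z - n) 0) (mu.prod mu) :=
      ((((hT2 N).const_mul _).add (integrable_const _)).add ((hκT2 N).const_mul _)).add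
        ((hm n).const_mul _)
    have h1 : |∫ z, κ z * T N z ∂(mu.prod mu)| ≤ ∫ z, |κ z * T N z| ∂(mu.prod mu) :=
      abs_integral_le_integral_abs
    have h2 : ∫ z, |κ z * T N z| ∂(mu.prod mu) ≤ ∫ z, ((n * s / 2) * T N z ^ 2 + n / (2 * s) +
        l / 2 * (κ z * T N z ^ 2) + 1 / (2 * l) * max (κ z - n) 0) ∂(mu.prod mu) := by
      refine integral_mono (hκT N).abs hI fun z => ?_
      simp only
      have hn : (0 : ℝ) ≤ n := Nat.cast_nonneg n
      have hk := hκ0 z
      have ha : 0 ≤ |T N z| := abs_nonneg _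
      have ha2 : |T N z| ^ 2 = T N z ^ 2 := sq_abs _
      have y1 := young |T N z| s hs
      have y2 := young |T N z| l hl
      rw [ha2] at y1 y2
      have hm0 : 0 ≤ max (κ z - n) 0 := le_max_right _ _
      have hm1 : κ z - n ≤ max (κ z - n) 0 := le_max_left _ _
      have hm2 : max (κ z - n) 0 ≤ κ z := max_le (by linarith) hk
      rw [abs_mul, abs_of_nonneg hk]
      have e1 : κ z * |T N z| ≤ (n + max (κ z - n) 0) * |T N z| :=
        mul_le_mul_of_nonneg_right (by linarith) ha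
      have e2 : (n : ℝ) * |T N z| ≤ n * (s / 2 * T N z ^ 2 + 1 / (2 * s)) :=
        mul_le_mul_of_nonneg_left y1 hn
      have e3 : max (κ z - n) 0 * |T N z| ≤
          max (κ z - n) 0 * (l / 2 * T N z ^ 2 + 1 / (2 * l)) :=
        mul_le_mul_of_nonneg_left y2 hm0
      have e4 : max (κ z - n) 0 * (l / 2 * T N z ^ 2) ≤ κ z * (l / 2 * T N z ^ 2) :=
        mul_le_mul_of_nonneg_right hm2 (by positivity)
      have e5 : (n : ℝ) * (s / 2 * T N z ^ 2 + 1 / (2 * s)) =
          n * s / 2 * T N z ^ 2 + n / (2 * s) := by ring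
      have e6 : κ z * (l / 2 * T N z ^ 2) = l / 2 * (κ z * T N z ^ 2) := by ring
      nlinarith [e1, e2, e3, e4, e5, e6]
    have h3 : ∫ z, ((n * s / 2) * T N z ^ 2 + n / (2 * s) +
        l / 2 * (κ z * T N z ^ 2) + 1 / (2 * l) * max (κ z - n) 0) ∂(mu.prod mu) =
        n * s / 2 * ∫ z, T N z ^ 2 ∂(mu.prod mu) + n / (2 * s) +
          l / 2 * ∫ z, κ z * T N z ^ 2 ∂(mu.prod mu) +
          1 / (2 * l) * ∫ z, max (κ z - n) 0 ∂(mu.prod mu) := by
      rw [integral_add, integral_add, integral_add, integral_const_mul, integral_const_mul,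
        integral_const_mul, integral_const]
      · simp
      · exact (hT2 N).const_mul _
      · exact integrable_const _
      · exact ((hT2 N).const_mul _).add (integrable_const _)
      · exact (hκT2 N).const_mul _
      · exact (((hT2 N).const_mul _).add (integrable_const _)).add ((hκT2 N).const_mul _)
      · exact (hm n).const_mul _
    have h4 : l / 2 * ∫ z, κ z * T N z ^ 2 ∂(mu.prod mu) ≤ l / 2 * C :=
      mul_le_mul_of_nonneg_left (hC N) (by positivity)
    linarith
  rw [Metric.tendsto_atTop]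
  intro ε hε
  obtain ⟨l, hl, hl2⟩ : ∃ l : ℝ, 0 < l ∧ l / 2 * C ≤ ε / 8 := by
    refine ⟨ε / (4 * (C + 1)), by positivity, ?_⟩
    have h5 : ε / (4 * (C + 1)) / 2 * C = ε / 8 * (C / (C + 1)) := by
      field_simp
      ring
    rw [h5]
    have h6 : C / (C + 1) ≤ 1 := by
      rw [div_le_one (by linarith)]
      linarith
    nlinarith
  obtain ⟨n, hn⟩ : ∃ n : ℕ, 1 / (2 * l) * ∫ z, max (κ z - n) 0 ∂(mu.prod mu) < ε / 4 := by
    have h7 := hmlim.const_mul (1 / (2 * l))
    rw [mul_zero] at h7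
    exact ((tendsto_order.mp h7).2 (ε / 4) (by linarith)).exists
  obtain ⟨s, hs, hs2⟩ : ∃ s : ℝ, 0 < s ∧ n / (2 * s) ≤ ε / 8 := by
    refine ⟨4 * ((n : ℝ) + 1) / ε, by positivity, ?_⟩
    have h8 : (n : ℝ) / (2 * (4 * ((n : ℝ) + 1) / ε)) = ε / 8 * (n / (n + 1)) := by
      field_simp
      ring
    rw [h8]
    have h9 : (n : ℝ) / (n + 1) ≤ 1 := by
      rw [div_le_one (by positivity)]
      linarith
    nlinarith
  have h10 := hlim.const_mul ((n : ℝ) * s / 2)
  rw [mul_zero] at h10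
  obtain ⟨N₀, hN₀⟩ := eventually_atTop.mp ((tendsto_order.mp h10).2 (ε / 4) (by linarith))
  refine ⟨N₀, fun N hN => ?_⟩
  rw [Real.dist_eq, sub_zero]
  have h11 := key N n s l hs hl
  have h12 := hN₀ N hN
  linarith

end Pool.Agent.W451.GL
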